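import Pool.Agent.Helper79.SG.T1
import Pool.Agent.Helper43.UN.GoalsH

/-! Packet T1n of project UN: more facts on the stages. -/

set_option autoImplicit false

namespace Pool.Agent.Helper38.UN

open Pool.Agent.Helper18.SG (GoalT1 GoalT1a)
open Pool.Agent.Helper43.UN
open Helper18.Cusp hiding SS
open Pool.Agent.Helper79.SG (SS SS_two SS_ge val_zero val_eq val_one val_two val_main)

theorem SS_anti (a : ℕ → ℕ) (b : ℕ) : SS a (b + 1) ≤ SS a b := by
  unfold SS
  refine Finset.sum_le_sum fun i _ => ?_
  omega

theorem goalT1n : GoalT1n := by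
  intro hT hT1 n a h
  obtain ⟨m1, m2, m3, m4, m5, m6, m7, m8⟩ := h.chain
  have hd := h.hd
  have hlev := lev_red h.ha h.hd
  have hs9 := h.hsum
  rw [sum9] at hs9
  have hk : kap n a = 3 * n - (a 0 + a 1 + a 2 + a 3 + a 4 + a 5 + a 6 + a 7 + a 8) := by
    rw [kap, sum9]
  refine ⟨fun b hb => ?_, fun hb => ?_, fun hne b hb hpos => ?_, fun hn h7 b => ?_⟩
  · obtain ⟨u1, u2, u3⟩ := val_main hT h (b := b) (e := n - 3 * b) (by omega) (by omega)
    have w := SS_anti a b
    rcases Nat.lt_or_ge (b + 1) (a 2) with h2 | h2
    · have v : (rr n a (b + 1) : ℤ) = 3 * ((n : ℤ) - 3 * ((b + 1 : ℕ) : ℤ)) - SS a (b + 1) :=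
        rr_lev h hlev h2
      push_cast at v
      omega
    · have h4 := SS_two h h2
      rcases Nat.lt_or_ge (n - 3 * (b + 1)) ((a 0 - (b + 1)) + (a 1 - (b + 1))) with hs | hs
      · have v := val_two hT h (b := b + 1) (e := n - 3 * (b + 1)) h2 (by omega) (by omega)
          (by omega)
        omega
      · have v := val_one hT h (b := b + 1) (e := n - 3 * (b + 1)) h2 (by omega) (by omega)
          (by omega)
        omega
  · rcases Nat.lt_or_ge (a 8) (a 2) with h2 | h2
    · have v := rr_lev h hlev h2
      rw [sum9z] at v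
      omega
    · have v := val_one hT h (b := a 8) (e := n - 3 * a 8) h2 (by omega) (by omega) (by omega)
      omega
  · rcases rr_strict h hb hpos with h1 | ⟨h1, h2, h3⟩
    · exact h1
    · by_contra hcon
      have h4 := ((hT1 n a h).1 (b + 1)).1 hpos
      rcases Nat.lt_or_ge b (a 2) with h5 | h5
      · have v := rr_lev h hlev h5
        rw [sum9z] at v
        exact hne (by omega)
      · have v := val_one hT h (b := b) (e := 3) h5 (by omega) (by omega) (by omega)
        omega
  · rcases Nat.lt_trichotomy b (a 0) with hb | hb | hb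
    · rw [if_pos hb]
      have v := rr_lev h hlev (b := b) (by omega)
      rw [sum9z] at v
      omega
    · rw [if_neg (by omega), if_pos hb]
      have v := val_eq hT h (b := b) (e := 0) (by omega) (by omega) (by omega)
      omega
    · rw [if_neg (by omega), if_neg (by omega)]
      exact rr_zero (by omega)

end Pool.Agent.Helper38.UN
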